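import Mathlib
import Pool.Agent.Y793.E.Ml2

/-!
# Malle's conjecture for `C₂ ≀ H`, `H` an alternating tower over a Galois group

`H` is a finite group acting on itself by multiplication, and `G = C₂ ≀ H` acts on `H × {0, 1}`.

First part: `A` is any finite perfect group (realizable or not), `n` is large, `r = 8 k + 4` is large
in terms of `n`, and `H = (A ≀ A_n) ≀ A_r`. Malle's conjecture (weak form and asymptotic formula)
holds for `G` over every number field `K`.

Second part: `K` is a number field, `Γ` a finite group which is a Galois group over `K`,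
`α : B → Γ` a split epimorphism of finite groups with perfect kernel `A`, `χ` a character of `Γ` with
values `± 1`, `n ≥ ((3 |A| + 2)!)^3` and `r = 8 k + 4` is large. Malle's conjecture holds over `K` for
`C₂ ≀ H`, where `H` is the group `AltEP (twProj α χ n) r`, an extension of `Γ` by `(A ≀ A_n) ≀ A_r`.

* `Wr B n` is the wreath product `B ≀ S_n = (Fin n → B) ⋊ Perm (Fin n)`.
* `AltEP α n` is the group of all `(x, ρ)` with `x` in `B ≀ A_n`, `ρ` in `Γ` and `α (x.left i) = ρ` for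
  every `i`.
* `AltTw α χ n` is the group of all `(x, ρ)` with `x` in `B ≀ S_n`, `ρ` in `Γ`, `α (x.left i) = ρ` for
  every `i` and `sign x.right = χ ρ`; `twProj α χ n (x, ρ) = ρ`.
-/

set_option autoImplicit false

open Filter
open Nfff32c05 Pool.Agent.H391R2 Pool.Agent.Y793

namespace Pool.Agent.Results.MP_af4c59_nt.OrderTwoByTowers

/-- The alternating wreath product `A ≀ A_n`: the group of the elements of `A^n ⋊ S_n` over even
permutations. -/
def AltWreath (A : Type) [Group A] (n : ℕ) : Type :=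
  (Equiv.Perm.sign.comp (SemidirectProduct.rightHom :
    (Fin n → A) ⋊[mulAutArrow] Equiv.Perm (Fin n) →* Equiv.Perm (Fin n))).ker

/-- Its group structure. -/
instance instGroup (A : Type) [Group A] (n : ℕ) : Group (AltWreath A n) :=
  inferInstanceAs (Group (Equiv.Perm.sign.comp (SemidirectProduct.rightHom :
    (Fin n → A) ⋊[mulAutArrow] Equiv.Perm (Fin n) →* Equiv.Perm (Fin n))).ker)

/-- `G ≤ S_d` is, up to a bijection `f` of `{1, ..., d}` with `H × {0, 1}`, the wreath product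
`C₂ ≀ H`: it consists of all permutations `π` for which there is `h ∈ H` such that `π` maps the block
`{x} × {0, 1}` to the block `{h x} × {0, 1}`, for all `x ∈ H`. -/
def IsC2Wreath (H : Type) [Group H] {d : ℕ} (G : Subgroup (Equiv.Perm (Fin d))) : Prop :=
  ∃ f : Fin d ≃ H × Bool, ∀ π : Equiv.Perm (Fin d), π ∈ G ↔ ∃ h : H, ∀ i, (f (π i)).1 = h * (f i).1

/-- The index of a permutation: `d` minus the number of its cycles, fixed points included. -/
def ind {d : ℕ} (g : Equiv.Perm (Fin d)) : ℕ := g.cycleType.sum - Multiset.card g.cycleType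

/-- `a(G) = 1 / min ind(g)`, the minimum over the `g ≠ 1` in `G`. -/
noncomputable def a {d : ℕ} (G : Subgroup (Equiv.Perm (Fin d))) : ℝ :=
  1 / (sInf {j : ℕ | ∃ g ∈ G, g ≠ 1 ∧ j = ind g} : ℕ)

/-- `N_{d,K}(X; G)`: the number of fields `L` between `K` and its algebraic closure, of degree `d`
over `K`, whose Galois group, acting on the embeddings, is `G` (up to numbering), and whose relative
discriminant has norm at most `X` (that is, `|d_L| ≤ X |d_K| ^ d`). -/
noncomputable def N (K : Type) [Field K] [NumberField K] (d : ℕ)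
    (G : Subgroup (Equiv.Perm (Fin d))) (X : ℝ) : ℕ :=
  Set.ncard {L : IntermediateField K (AlgebraicClosure K) |
    Module.finrank K L = d ∧
    (∃ e : (L →ₐ[K] AlgebraicClosure K) ≃ Fin d, ∀ π : Equiv.Perm (Fin d),
      π ∈ G ↔ ∃ σ : AlgebraicClosure K ≃ₐ[K] AlgebraicClosure K,
        ∀ φ : L →ₐ[K] AlgebraicClosure K, e (σ.toAlgHom.comp φ) = π (e φ)) ∧
    ∃ h : NumberField L,
      ((|@NumberField.discr L _ h| : ℤ) : ℝ) ≤ X * ((|NumberField.discr K| : ℤ) : ℝ) ^ d}

/-- Malle's conjecture for `(K, G)`: the asymptotic formula `N_{d,K}(X; G) ~ c X ^ a(G)` (so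
`b(K, G) = 1`), and the inequalities of the weak form. -/
def Malle (K : Type) [Field K] [NumberField K] (d : ℕ) (G : Subgroup (Equiv.Perm (Fin d))) :
    Prop :=
  (∃ c : ℝ, 0 < c ∧ Tendsto (fun X : ℝ => (N K d G X : ℝ) / X ^ a G) atTop (nhds c)) ∧
  (∃ c₁ : ℝ, 0 < c₁ ∧ ∃ X₀ : ℝ, ∀ X : ℝ, X₀ ≤ X → c₁ * X ^ a G ≤ N K d G X) ∧
  (∀ ε : ℝ, 0 < ε → ∃ c₂ : ℝ, 0 < c₂ ∧ ∃ X₀ : ℝ, ∀ X : ℝ, X₀ ≤ X →
    (N K d G X : ℝ) < c₂ * X ^ (a G + ε))

/-- Malle's conjecture over `K` for all subgroups of symmetric groups of the form `C₂ ≀ H`, `H` in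
its regular action. -/
def MalleOrderTwo (K : Type) [Field K] [NumberField K] (H : Type) [Group H] : Prop :=
  ∀ (d : ℕ) (G : Subgroup (Equiv.Perm (Fin d))), IsC2Wreath H G → Malle K d G

/-- Malle's conjecture over all number fields for all `C₂ ≀ ((A ≀ A_n) ≀ A_r)`, `n` large and
`r = 8 k + 4` large in terms of `n`. -/
def MalleTower (A : Type) [Group A] : Prop :=
  ∃ n₀ : ℕ, ∀ n ≥ n₀, ∃ k₀ : ℕ, ∀ k ≥ k₀, ∀ (K : Type) [Field K] [NumberField K],
    MalleOrderTwo K (AltWreath (AltWreath A n) (8 * k + 4))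

/-- Malle's conjecture over `K` for all `C₂ ≀ H`, `H` the alternating fibre power of `α` of degree
`8 k + 4`, for all large `k`. -/
def AllLarge (K : Type) [Field K] [NumberField K] {Γ B : Type} [Group Γ] [Group B]
    (α : B →* Γ) : Prop :=
  ∃ k₀ : ℕ, ∀ k ≥ k₀, MalleOrderTwo K (AltEP α (8 * k + 4))

/-- The second part over the Galois group `Γ`. -/
def MalleAbove (K Γ : Type) [Field K] [NumberField K] [Group Γ] : Prop :=
  ∀ (B : Type) [Group B] [Finite B] (α : B →* Γ) (s : Γ →* B), (∀ ρ, α (s ρ) = ρ) →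
    commutator α.ker = ⊤ → ∀ (χ : Γ →* ℤˣ) (n : ℕ),
      ((3 * Nat.card α.ker + 2).factorial) ^ 3 ≤ n → AllLarge K (twProj α χ n)

theorem a_eq {H : Type} [Group H] [Finite H] {d : ℕ} {G : Subgroup (Equiv.Perm (Fin d))}
    (hG : IsC2Wreath H G) : a G = 1 := by
  have h := Pool.Agent.TH444.ML.least_ind (H := H) hG
  have h2 : sInf {j : ℕ | ∃ g ∈ G, g ≠ 1 ∧ j = ind g} = 1 := h.csInf_eq
  unfold a
  rw [h2]
  simp

theorem of_data (K : Type) [Field K] [NumberField K] (H : Type) [Group H] [Finite H]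
    (h2 : 2 ≤ Nat.card H) (U : Subgroup H) (hU : U.normalCore = ⊥)
    (hc : 8 * U.index * (U.index + 1) ≤ Nat.card H)
    (hne : (Pool.Agent.TH444.ML.Gal K (AlgebraicClosure K) H).Nonempty) :
    MalleOrderTwo K H := by
  intro d G hG
  obtain ⟨-, c, hc0, hlim⟩ :=
    Pool.Agent.TH444.ML.asymp Pool.Agent.TH444.ML.rest K H h2 U hU hc hne G hG
  have ha := a_eq hG
  unfold Malle
  rw [ha]
  have hlim' : Tendsto (fun X : ℝ => (N K d G X : ℝ) / X) atTop (nhds c) := hlim
  refine ⟨⟨c, hc0, by simpa using hlim'⟩, ⟨c / 2, by positivity, ?_⟩, ?_⟩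
  · have h := (hlim'.eventually (lt_mem_nhds (by linarith : c / 2 < c))).and
      (eventually_gt_atTop (0 : ℝ))
    obtain ⟨X₀, hX₀⟩ := eventually_atTop.1 h
    refine ⟨X₀, fun X hX => ?_⟩
    obtain ⟨h3, h4⟩ := hX₀ X hX
    rw [lt_div_iff₀ h4] at h3
    rw [Real.rpow_one]
    exact h3.le
  · intro ε hε
    refine ⟨2 * c, by positivity, ?_⟩
    have h := (hlim'.eventually (gt_mem_nhds (by linarith : c < 2 * c))).and
      (eventually_ge_atTop (1 : ℝ))
    obtain ⟨X₀, hX₀⟩ := eventually_atTop.1 h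
    refine ⟨X₀, fun X hX => ?_⟩
    obtain ⟨h3, h4⟩ := hX₀ X hX
    have h5 : (0 : ℝ) < X := by linarith
    rw [div_lt_iff₀ h5] at h3
    refine h3.trans_le ?_
    apply mul_le_mul_of_nonneg_left _ (by positivity)
    calc X = X ^ (1 : ℝ) := (Real.rpow_one X).symm
      _ ≤ X ^ (1 + ε) := Real.rpow_le_rpow_of_exponent_le h4 (by linarith)

end Pool.Agent.Results.MP_af4c59_nt.OrderTwoByTowers

open Pool.Agent.Results.MP_af4c59_nt.OrderTwoByTowers in
/-- Malle's conjecture for `C₂ ≀ ((A ≀ A_n) ≀ A_r)` over every number field (first part), and for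
`C₂ ≀ H`, `H` the extensions of `Γ` by `(A ≀ A_n) ≀ A_r`, over the number fields over which `Γ` is a
Galois group (second part). -/
theorem Pool.Agent.Results.MP_af4c59_nt.OrderTwoByTowers.result :
    (∀ (A : Type) [Group A] [Finite A], commutator A = ⊤ → MalleTower A) ∧
    (∀ (K Γ : Type) [Field K] [NumberField K] [Group Γ] [Finite Γ], IsRealizable K Γ →
      MalleAbove K Γ) := by
  constructor
  · intro A _ _ hA
    obtain ⟨n₀, h⟩ := tower_real A hA
    refine ⟨n₀, fun n hn => ?_⟩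
    obtain ⟨k₀, h2⟩ := h n hn
    refine ⟨k₀, fun k hk K _ _ => ?_⟩
    obtain ⟨hf, hc, ⟨U, hU, hi⟩, hr⟩ := h2 k hk
    exact @of_data K _ _ (AltWreath (AltWreath A n) (8 * k + 4)) _ hf hc U hU hi (hr K)
  · intro K Γ _ _ _ _ hΓ B _ _ α s hs hperf χ n hn
    obtain ⟨k₀, h2⟩ := ep_data K Γ B α s hs hperf χ n hn hΓ
    refine ⟨k₀, fun k hk => ?_⟩
    obtain ⟨hf, hc, ⟨U, hU, hi⟩, hr⟩ := h2 k hk
    exact of_data K _ hc U hU hi hr
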